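import Pool.Agent.Helper38.RS.Goals1
import Pool.Agent.Helper51.RP.Goals1

/-!
# Project RS / RP (MP_fc6b1e_nt): packet RAM, for all primes `p`

The valuations of the norms of elements `y` with `γ(y)/y` a unit.
-/

namespace Pool.Agent.Helper42.RS

open NumberField Polynomial Module IsDedekindDomain

section resolvent

variable {M H : Type} [Field M] [Field H] [Algebra M H]

theorem pow_eq_one_of_finrank [FiniteDimensional M H] {p : ℕ} (hd : finrank M H = p)
    (γ : H ≃ₐ[M] H) : γ ^ p = 1 := by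
  have h1 := IntermediateField.finrank_fixedField_eq_card (Subgroup.zpowers γ)
  have h2 := finrank_mul_finrank M (IntermediateField.fixedField (Subgroup.zpowers γ)) H
  rw [h1, hd, Nat.card_zpowers] at h2
  exact orderOf_dvd_iff_pow_eq_one.1 ⟨_, by rw [← h2, mul_comm]⟩

theorem mem_of_fixed [FiniteDimensional M H] {p : ℕ} (hp : p.Prime) (hd : finrank M H = p)
    (γ : H ≃ₐ[M] H) (hγ : γ ≠ 1) (z : H) (hz : γ z = z) : ∃ m : M, algebraMap M H m = z := by
  have h1 := IntermediateField.finrank_fixedField_eq_card (Subgroup.zpowers γ)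
  have h2 := finrank_mul_finrank M (IntermediateField.fixedField (Subgroup.zpowers γ)) H
  rw [h1, hd, Nat.card_zpowers] at h2
  have h3 : orderOf γ ≠ 1 := by rwa [Ne, orderOf_eq_one_iff]
  have h4 : orderOf γ = p := ((Nat.dvd_prime hp).1 ⟨_, by rw [← h2, mul_comm]⟩).resolve_left h3
  have h5 : finrank M (IntermediateField.fixedField (Subgroup.zpowers γ)) = 1 := by
    rw [h4] at h2
    exact Nat.eq_of_mul_eq_mul_right hp.pos (by rw [h2, one_mul])
  have h6 := IntermediateField.finrank_eq_one_iff.1 h5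
  have h7 : z ∈ IntermediateField.fixedField (Subgroup.zpowers γ) := by
    rw [IntermediateField.mem_fixedField_iff]
    intro g hg
    obtain ⟨n, rfl⟩ := Subgroup.mem_zpowers_iff.1 hg
    have h8 : γ ∈ MulAction.stabilizer (H ≃ₐ[M] H) z := by
      rw [MulAction.mem_stabilizer_iff]; exact hz
    have h9 := Subgroup.zpow_mem _ h8 n
    rw [MulAction.mem_stabilizer_iff] at h9
    exact h9
  rw [h6, IntermediateField.mem_bot] at h7
  exact h7

theorem sum_pow_eq_zero {p : ℕ} {F : Type} [Field F] (x : F) (h1 : x ^ p = 1) (h2 : x ≠ 1) :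
    ∑ i ∈ Finset.range p, x ^ i = 0 := by
  have h := mul_geom_sum x p
  rw [h1, sub_self] at h
  exact (mul_eq_zero.1 h).resolve_left (sub_ne_zero.2 h2)

/-- Lagrange resolvents. -/
theorem resolvent {p : ℕ} (hp : p.Prime) [FiniteDimensional M H] (hd : finrank M H = p) (ε : M)
    (hε : IsPrimitiveRoot ε p) (s : H) (hs : s ≠ 0) (γ : H ≃ₐ[M] H)
    (hγ : γ s = algebraMap M H ε * s) (y : H) :
    ∃ m : ℕ → M, (∀ i, ∑ j ∈ Finset.range p, algebraMap M H (ε⁻¹ ^ (i * j)) * (γ ^ j) y =
      algebraMap M H (m i) * s ^ i) ∧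
      ∑ i ∈ Finset.range p, algebraMap M H (m i) * s ^ i = p * y := by
  have hε0 : ε ≠ 0 := hε.ne_zero hp.ne_zero
  have hγ1 : γ ≠ 1 := by
    rintro rfl
    have h1 : (algebraMap M H ε) * s = 1 * s := by rw [← hγ, one_mul]; rfl
    have h2 : algebraMap M H ε = algebraMap M H 1 := by
      rw [map_one]; exact mul_right_cancel₀ hs h1
    exact hε.ne_one hp.one_lt ((algebraMap M H).injective h2)
  have hγp := pow_eq_one_of_finrank hd γ
  have key : ∀ i : ℕ, ∃ m : M, ∑ j ∈ Finset.range p, algebraMap M H (ε⁻¹ ^ (i * j)) * (γ ^ j) y =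
      algebraMap M H m * s ^ i := by
    intro i
    set f : ℕ → H := fun j => algebraMap M H (ε⁻¹ ^ (i * j)) * (γ ^ j) y with hf
    have hfp : f p = f 0 := by
      simp only [hf]
      rw [hγp, mul_comm i p, pow_mul, inv_pow, hε.pow_eq_one]
      simp
    have hγf : ∀ j, γ (f j) = algebraMap M H (ε ^ i) * f (j + 1) := by
      intro j
      simp only [hf]
      rw [map_mul, AlgEquiv.commutes, ← mul_assoc, ← map_mul, pow_succ' γ j]
      congr 2
      rw [mul_add, pow_add, mul_one, mul_comm (ε⁻¹ ^ (i * j)), ← mul_assoc, ← mul_pow,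
        mul_inv_cancel₀ hε0, one_pow, one_mul]
    have hsum : ∑ j ∈ Finset.range p, f (j + 1) = ∑ j ∈ Finset.range p, f j := by
      have h1 := Finset.sum_range_succ f p
      have h2 := Finset.sum_range_succ' f p
      rw [h1, hfp] at h2
      exact (add_right_cancel h2).symm
    have hfix : γ ((∑ j ∈ Finset.range p, f j) / s ^ i) = (∑ j ∈ Finset.range p, f j) / s ^ i := by
      rw [map_div₀, map_sum, map_pow, hγ, mul_pow, ← map_pow, Finset.sum_congr rfl (fun j _ => hγf j),
        ← Finset.mul_sum, hsum]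
      exact mul_div_mul_left _ _ (by simpa using pow_ne_zero i hε0)
    obtain ⟨m, hm⟩ := mem_of_fixed hp hd γ hγ1 _ hfix
    exact ⟨m, by rw [hm, div_mul_cancel₀ _ (pow_ne_zero i hs)]⟩
  choose m hm using key
  refine ⟨m, hm, ?_⟩
  rw [← Finset.sum_congr rfl (fun i _ => hm i), Finset.sum_comm]
  rw [Finset.sum_eq_single 0]
  · simp
  · intro j hj hj0
    rw [← Finset.sum_mul, ← map_sum]
    have h1 : ∑ i ∈ Finset.range p, ε⁻¹ ^ (i * j) = 0 := by
      have h2 := sum_pow_eq_zero (p := p) (ε⁻¹ ^ j)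
        (by rw [← pow_mul, mul_comm j p, pow_mul, inv_pow, hε.pow_eq_one, inv_one, one_pow])
        (by
          rw [inv_pow, Ne, inv_eq_one]
          exact hε.pow_ne_one_of_pos_of_lt hj0 (Finset.mem_range.1 hj))
      rw [← h2]
      refine Finset.sum_congr rfl fun i _ => ?_
      rw [← pow_mul, mul_comm]
    rw [h1, map_zero, zero_mul]
  · intro h
    exact absurd (Finset.mem_range.2 hp.pos) h

end resolvent

section val

variable {M H : Type} [Field M] [NumberField M] [Field H] [NumberField H] [Algebra M H]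

theorem exists_above (v : HeightOneSpectrum (𝓞 M)) :
    ∃ w : HeightOneSpectrum (𝓞 H), w.asIdeal.LiesOver v.asIdeal := by
  obtain ⟨P, hP, hP2⟩ := Ideal.exists_maximal_ideal_liesOver_of_isIntegral (S := 𝓞 H) v.asIdeal
  exact ⟨⟨P, hP.isPrime, Ideal.ne_bot_of_liesOver_of_ne_bot v.ne_bot P⟩, hP2⟩

theorem val_int {F : Type} [Field F] [NumberField F] (w : HeightOneSpectrum (𝓞 F)) (x : F)
    (hx : IsIntegral ℤ x) : w.valuation F x ≤ 1 :=
  w.valuation_le_one (⟨x, hx⟩ : 𝓞 F)

theorem val_unit (w : HeightOneSpectrum (𝓞 H)) (g : H ≃ₐ[M] H) (u : (𝓞 H)ˣ) :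
    w.valuation H (g (u : H)) = 1 := by
  have h1 : w.valuation H (g (u : H)) ≤ 1 :=
    val_int w _ (map_isIntegral_int g (RingOfIntegers.isIntegral_coe _))
  have h2 : w.valuation H (g ((u⁻¹ : (𝓞 H)ˣ) : H)) ≤ 1 :=
    val_int w _ (map_isIntegral_int g (RingOfIntegers.isIntegral_coe _))
  have h3 : g (u : H) * g ((u⁻¹ : (𝓞 H)ˣ) : H) = 1 := by
    rw [← map_mul, ← map_mul, Units.mul_inv, map_one, map_one]
  have h4 : w.valuation H (g (u : H)) * w.valuation H (g ((u⁻¹ : (𝓞 H)ˣ) : H)) = 1 := by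
    rw [← map_mul, h3, map_one]
  refine le_antisymm h1 ?_
  rw [← h4]
  exact mul_le_of_le_one_right' h2

theorem val_pow_root (w : HeightOneSpectrum (𝓞 H)) {p : ℕ} (hp : p ≠ 0) (x : H)
    (hx : x ^ p = 1) : w.valuation H x = 1 := by
  have h1 : w.valuation H x ^ p = 1 := by rw [← map_pow, hx, map_one]
  exact (pow_eq_one_iff_of_nonneg zero_le hp).1 h1

/-- The claim at the primes which do not divide `p`. -/
theorem claimA {p : ℕ} (hp : p.Prime) (hd : finrank M H = p) (ε : M) (hε : IsPrimitiveRoot ε p)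
    (a : M) (ha : a ≠ 0) (s : H) (hsa : s ^ p = algebraMap M H a) (γ : H ≃ₐ[M] H)
    (hγ : γ s = algebraMap M H ε * s) (v : HeightOneSpectrum (𝓞 M))
    (w : HeightOneSpectrum (𝓞 H)) [w.asIdeal.LiesOver v.asIdeal]
    (hpv : w.valuation H (p : H) = 1)
    (hav : (p : ℤ) ∣ WithZero.log (v.valuation M a)) (y : H) (hy : y ≠ 0)
    (hγy : ∀ j, w.valuation H ((γ ^ j) y) = w.valuation H y) :
    ∃ c : M, w.valuation H (algebraMap M H c) = w.valuation H y := by
  have hs : s ≠ 0 := by
    rintro rfl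
    rw [zero_pow hp.ne_zero] at hsa
    exact ha ((map_eq_zero _).1 hsa.symm)
  obtain ⟨k, hk⟩ := hav
  obtain ⟨π, hπ⟩ := v.valuation_exists_uniformizer M
  have hπ0 : π ≠ 0 := by
    rintro rfl
    rw [map_zero] at hπ
    exact absurd hπ.symm (by simp)
  have hva : v.valuation M a = WithZero.exp ((p : ℤ) * k) := by
    rw [← hk, WithZero.exp_log]
    exact (Valuation.ne_zero_iff _).2 ha
  have h1 : v.valuation M (a * (π ^ k) ^ p) = 1 := by
    rw [map_mul, map_pow, map_zpow₀, hva, hπ, ← WithZero.exp_zsmul, ← WithZero.exp_nsmul,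
      ← WithZero.exp_add, ← WithZero.exp_zero]
    congr 1
    simp only [smul_eq_mul, nsmul_eq_mul]
    ring
  have h2 : w.valuation H (s * algebraMap M H (π ^ k)) = 1 := by
    have h3 : w.valuation H (s * algebraMap M H (π ^ k)) ^ p = 1 := by
      rw [← map_pow, mul_pow, hsa, ← map_pow, ← map_mul, ← v.valuation_liesOver H w, h1, one_pow]
    exact (pow_eq_one_iff_of_nonneg zero_le hp.ne_zero).1 h3
  obtain ⟨m, hm1, hm2⟩ := resolvent hp hd ε hε s hs γ hγ y
  have hyv : w.valuation H y ≠ 0 := (Valuation.ne_zero_iff _).2 hy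
  have h4 : ∀ i, w.valuation H (algebraMap M H (m i) * s ^ i) ≤ w.valuation H y := by
    intro i
    rw [← hm1 i]
    refine Valuation.map_sum_le _ fun j _ => ?_
    rw [map_mul, hγy j, val_pow_root w hp.ne_zero _ (by
      rw [← map_pow, ← pow_mul, inv_pow, mul_comm, pow_mul, hε.pow_eq_one, one_pow, inv_one,
        map_one]), one_mul]
  have h5 : ∃ i ∈ Finset.range p, w.valuation H y ≤ w.valuation H (algebraMap M H (m i) * s ^ i) := by
    by_contra hcon
    push Not at hcon
    have h6 := Valuation.map_sum_lt (w.valuation H) hyv hcon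
    rw [hm2, map_mul, hpv, one_mul] at h6
    exact lt_irrefl _ h6
  obtain ⟨i, -, hi⟩ := h5
  refine ⟨m i * (π ^ k)⁻¹ ^ i, ?_⟩
  rw [← le_antisymm (h4 i) hi, map_mul, map_mul, map_mul]
  congr 1
  rw [map_pow, map_pow, map_pow, map_inv₀, map_inv₀]
  congr 1
  rw [map_mul] at h2
  exact (eq_inv_of_mul_eq_one_left h2).symm

/-- Approximate `p`-th roots of an integer congruent to `1` modulo `p³`. -/
theorem root_seq {R : Type} [CommRing R] {p : ℕ} (a : R)
    (ha : (p : R) ^ 3 ∣ a - 1) (N : ℕ) :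
    ∃ s e : R, s ^ p - a = (p : R) ^ (N + 3) * e ∧ (p : R) ^ 2 ∣ s - 1 := by
  induction N with
  | zero =>
    obtain ⟨c, hc⟩ := ha
    refine ⟨1, -c, ?_, by simp⟩
    rw [one_pow]
    linear_combination -hc
  | succ N ih =>
    obtain ⟨s, e, h1, h2⟩ := ih
    obtain ⟨k, hk⟩ := Polynomial.powAddExpansion s (-((p : R) ^ (N + 2) * e)) p
    have h3 : (p : R) ∣ 1 - s ^ (p - 1) := by
      have h4 : s - 1 ∣ s ^ (p - 1) - 1 := by simpa using sub_dvd_pow_sub_pow s 1 (p - 1)
      have h5 : (p : R) ∣ s ^ (p - 1) - 1 :=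
        ((dvd_pow_self (p : R) (by norm_num)).trans h2).trans h4
      have h6 := (dvd_neg).2 h5
      rwa [neg_sub] at h6
    obtain ⟨c, hc⟩ := h3
    refine ⟨s + -((p : R) ^ (N + 2) * e), e * c + (p : R) ^ N * k * e ^ 2, ?_, ?_⟩
    · rw [hk]
      have e1 : (p : R) ^ (N + 1 + 3) = (p : R) ^ (N + 3) * p := by ring
      linear_combination h1 + (p : R) ^ (N + 3) * e * hc
    · have h7 : s + -((p : R) ^ (N + 2) * e) - 1 = (s - 1) - (p : R) ^ 2 * ((p : R) ^ N * e) := by
        ring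
      rw [h7]
      exact dvd_sub h2 (dvd_mul_right _ _)

/-- The claim at the primes which divide `p`. -/
theorem claimB {p : ℕ} (hp : p.Prime) (hd : finrank M H = p) (ε : M) (hε : IsPrimitiveRoot ε p)
    (a : 𝓞 M) (ha : a ≠ 0) (hadm : (p : 𝓞 M) ^ 3 ∣ a - 1) (s : H)
    (hsa : s ^ p = algebraMap M H a) (γ : H ≃ₐ[M] H)
    (hγ : γ s = algebraMap M H ε * s)
    (w : HeightOneSpectrum (𝓞 H))
    (hpv : w.valuation H (p : H) < 1) (y : H) (hy : y ≠ 0) :
    ∃ c : M, w.valuation H (algebraMap M H c) = w.valuation H y := by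
  have hs : s ≠ 0 := by
    rintro rfl
    rw [zero_pow hp.ne_zero] at hsa
    have h1 : (a : M) = 0 := (map_eq_zero _).1 hsa.symm
    exact ha (RingOfIntegers.coe_eq_zero_iff.1 h1)
  set V := w.valuation H with hV
  obtain ⟨m, -, hm2⟩ := resolvent hp hd ε hε s hs γ hγ y
  have hp0 : (p : H) ≠ 0 := Nat.cast_ne_zero.2 hp.ne_zero
  have hp0M : (p : M) ≠ 0 := Nat.cast_ne_zero.2 hp.ne_zero
  have hyv : V y ≠ 0 := (Valuation.ne_zero_iff _).2 hy
  have hVp0 : V (p : H) ≠ 0 := (Valuation.ne_zero_iff _).2 hp0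
  have hVp : V (p : H) ≤ WithZero.exp (-1) := by
    rw [← WithZero.exp_log hVp0, WithZero.exp_le_exp]
    have h1 : WithZero.log (V (p : H)) < 0 := by
      rw [← WithZero.exp_lt_exp, WithZero.exp_log hVp0, WithZero.exp_zero]
      exact hpv
    omega
  have hm3 : y = ∑ i ∈ Finset.range p, algebraMap M H (m i / p) * s ^ i := by
    have h1 : (p : H) * y = p * ∑ i ∈ Finset.range p, algebraMap M H (m i / p) * s ^ i := by
      rw [← hm2, Finset.mul_sum]
      refine Finset.sum_congr rfl fun i _ => ?_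
      rw [map_div₀, map_natCast]
      field_simp
    exact mul_left_cancel₀ hp0 h1
  -- a large exponent
  have hk : ∀ i, ∃ k : ℕ, ∀ n, k ≤ n → V (algebraMap M H (m i / p)) * V (p : H) ^ n < V y := by
    intro i
    rcases eq_or_ne (V (algebraMap M H (m i / p))) 0 with h0 | h0
    · exact ⟨0, fun n _ => by rw [h0, zero_mul]; exact zero_lt_iff.2 hyv⟩
    · obtain ⟨k, hk⟩ := WithZero.exists_exp_neg_natCast_lt (mul_ne_zero (inv_ne_zero h0) hyv)
      refine ⟨k, fun n hn => ?_⟩
      have h1 : V (p : H) ^ n ≤ WithZero.exp (-(k : ℤ)) := by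
        refine (pow_le_pow_left' hVp n).trans ?_
        rw [← WithZero.exp_nsmul, WithZero.exp_le_exp]
        simp only [smul_neg, nsmul_eq_mul, mul_one, neg_le_neg_iff, Nat.cast_le]
        exact hn
      have h2 := lt_of_le_of_lt h1 hk
      calc V (algebraMap M H (m i / p)) * V (p : H) ^ n
          < V (algebraMap M H (m i / p)) * ((V (algebraMap M H (m i / p)))⁻¹ * V y) :=
            mul_lt_mul_of_pos_left h2 (zero_lt_iff.2 h0)
        _ = V y := by rw [← mul_assoc, mul_inv_cancel₀ h0, one_mul]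
  choose k hk using hk
  set n := ∑ i ∈ Finset.range p, k i with hn
  have hkn : ∀ i ∈ Finset.range p, k i ≤ n := fun i hi =>
    Finset.single_le_sum (f := k) (fun _ _ => Nat.zero_le _) hi
  obtain ⟨r, e, hr, -⟩ := root_seq a hadm (n * p)
  set t : H := algebraMap M H (r : M) with ht
  have hεH : IsPrimitiveRoot (algebraMap M H ε) p := hε.map_of_injective (algebraMap M H).injective
  have hprod := hεH.pow_sub_pow_eq_prod_sub_mul s t hp.pos
  have hVint : ∀ x : M, IsIntegral ℤ x → V (algebraMap M H x) ≤ 1 := fun x hx =>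
    val_int w _ (hx.algebraMap)
  have hVt : V t ≤ 1 := hVint _ (RingOfIntegers.isIntegral_coe _)
  have hVs : V s ≤ 1 := by
    have h1 : V s ^ p ≤ 1 := by
      rw [← map_pow, hsa]
      exact hVint _ (RingOfIntegers.isIntegral_coe _)
    exact (pow_le_one_iff_of_nonneg zero_le hp.ne_zero).1 h1
  have hVst : V (s ^ p - t ^ p) ≤ (V (p : H) ^ n) ^ p := by
    have h1 : s ^ p - t ^ p = -((p : H) ^ (n * p + 3) * algebraMap M H (e : M)) := by
      have h2 := congrArg (fun z : 𝓞 M => algebraMap M H (z : M)) hr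
      simp only [map_sub, map_mul, map_pow, map_natCast] at h2
      rw [hsa, ht]
      linear_combination -h2
    rw [h1, Valuation.map_neg, map_mul, map_pow, ← pow_mul]
    calc V (p : H) ^ (n * p + 3) * V (algebraMap M H (e : M)) ≤ V (p : H) ^ (n * p + 3) * 1 :=
          mul_le_mul_right (hVint _ (RingOfIntegers.isIntegral_coe _)) _
      _ = V (p : H) ^ (n * p + 3) := mul_one _
      _ ≤ V (p : H) ^ (n * p) := pow_le_pow_right_of_le_one' hpv.le (by omega)
  have hex : ∃ μ ∈ Polynomial.nthRootsFinset p (1 : H), V (s - μ * t) ≤ V (p : H) ^ n := by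
    by_contra hcon
    push Not at hcon
    rw [hprod, map_prod] at hVst
    have hcard : (Polynomial.nthRootsFinset p (1 : H)).card = p := hεH.card_nthRootsFinset
    have h1 : (V (p : H) ^ n) ^ p < ∏ μ ∈ Polynomial.nthRootsFinset p (1 : H), V (s - μ * t) := by
      calc (V (p : H) ^ n) ^ p = ∏ μ ∈ Polynomial.nthRootsFinset p (1 : H), V (p : H) ^ n := by
            rw [Finset.prod_const, hcard]
        _ < _ := by
            refine Finset.prod_lt_prod_of_nonempty (fun i _ => ?_) hcon ?_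
            · exact zero_lt_iff.2 (pow_ne_zero _ hVp0)
            · rw [← Finset.card_pos, hcard]; exact hp.pos
    exact absurd hVst (not_le.2 h1)
  obtain ⟨μ, hμ, hμt⟩ := hex
  rw [Polynomial.mem_nthRootsFinset hp.pos] at hμ
  have hNZ : NeZero p := ⟨hp.ne_zero⟩
  obtain ⟨j, -, hj⟩ := hεH.eq_pow_of_pow_eq_one hμ
  refine ⟨∑ i ∈ Finset.range p, (m i / p) * (ε ^ j * (r : M)) ^ i, ?_⟩
  have hc : algebraMap M H (∑ i ∈ Finset.range p, (m i / p) * (ε ^ j * (r : M)) ^ i) =
      ∑ i ∈ Finset.range p, algebraMap M H (m i / p) * (μ * t) ^ i := by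
    rw [map_sum]
    refine Finset.sum_congr rfl fun i _ => ?_
    rw [map_mul, map_pow, map_mul, map_pow, hj]
  have hVμ : V (μ * t) ≤ 1 := by
    rw [map_mul, val_pow_root w hp.ne_zero μ hμ, one_mul]
    exact hVt
  have hdiff : V (∑ i ∈ Finset.range p, algebraMap M H (m i / p) * (μ * t) ^ i - y) < V y := by
    rw [Valuation.map_sub_swap]
    conv_lhs => rw [hm3]
    rw [← Finset.sum_sub_distrib]
    refine Valuation.map_sum_lt _ hyv fun i hi => ?_
    rw [← mul_sub, map_mul]
    refine lt_of_le_of_lt ?_ (hk i n (hkn i hi))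
    refine mul_le_mul_right ?_ _
    rw [← geom_sum₂_mul, map_mul]
    calc V (∑ l ∈ Finset.range i, s ^ l * (μ * t) ^ (i - 1 - l)) * V (s - μ * t)
        ≤ 1 * V (p : H) ^ n := by
          refine mul_le_mul' ?_ hμt
          refine Valuation.map_sum_le _ fun l _ => ?_
          rw [map_mul, map_pow, map_pow]
          exact mul_le_one' (pow_le_one' hVs _) (pow_le_one' hVμ _)
      _ = V (p : H) ^ n := one_mul _
  rw [hc]
  exact Valuation.map_eq_of_sub_lt _ hdiff

end val

open Pool.Agent.Helper51 in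
/-- **S_RAM** for all primes `p`. -/
theorem s_ram_p : RP.S_RAM := by
  intro p hp M H _ _ _ _ _ ε a s γ hε ha hadm hd hsa hγs y u x hγy hx v hv
  have hp' : p.Prime := hp.out
  obtain ⟨w, hw⟩ := exists_above (M := M) (H := H) v
  have := hw
  set V := w.valuation H with hV
  have hu : ∀ j : ℕ, V ((γ ^ j) (y : H)) = V (y : H) := by
    intro j
    induction j with
    | zero => rfl
    | succ j ih =>
      have h1 : (γ ^ (j + 1)) (y : H) = (γ ^ j) (u : H) * (γ ^ j) (y : H) := by
        rw [pow_succ, ← map_mul, ← hγy]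
        rfl
      rw [h1, map_mul, val_unit w (γ ^ j) u, one_mul, ih]
  have hclaim : ∃ c : M, V (algebraMap M H c) = V (y : H) := by
    rcases lt_or_eq_of_le (show V (p : H) ≤ 1 from val_int w _ (by
      rw [← map_natCast (algebraMap ℤ H)]; exact isIntegral_algebraMap)) with h | h
    · exact claimB hp' hd ε hε a ha hadm s hsa γ hγs w h y y.ne_zero
    · refine claimA hp' hd ε hε (a : M) (fun h0 => ha (RingOfIntegers.coe_eq_zero_iff.1 h0)) s hsa
        γ hγs v w h ?_ y y.ne_zero hu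
      simpa [RP.ordv] using hv
  obtain ⟨c, hc⟩ := hclaim
  have h1 : V (algebraMap M H x) = V (algebraMap M H c) ^ p := by
    rw [hx, map_prod, Finset.prod_congr rfl (fun j _ => hu j), Finset.prod_const, Finset.card_range,
      hc]
  rw [hV, ← v.valuation_liesOver H w, ← v.valuation_liesOver H w, ← pow_mul, mul_comm _ p,
    pow_mul] at h1
  have he : v.asIdeal.ramificationIdx' w.asIdeal ≠ 0 :=
    Ideal.IsDedekindDomain.ramificationIdx'_ne_zero_of_liesOver w.asIdeal v.ne_bot
  have h2 : v.valuation M x = v.valuation M c ^ p :=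
    (pow_left_inj₀ zero_le zero_le he).1 h1
  refine ⟨RP.ordv v c, ?_⟩
  simp only [RP.ordv]
  rw [h2, WithZero.log_pow]
  simp

open Pool.Agent.Helper38 in
/-- **S_RAM** for `p = 2`. -/
theorem s_ram : RS.S_RAM := by
  intro K M H _ _ _ _ _ _ _ _ a s γ ha hadm hd hsa hγs y u x hγy hx v hv
  have h0 : algebraMap (𝓞 K) (𝓞 M) a ≠ 0 := fun h => ha (by
    have := (map_eq_zero_iff (algebraMap (𝓞 K) (𝓞 M))
      (RingOfIntegers.algebraMap.injective K M)).1 h
    exact this)
  have h1 : ((2 : ℕ) : 𝓞 M) ^ 3 ∣ algebraMap (𝓞 K) (𝓞 M) a - 1 := by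
    have h2 := map_dvd (algebraMap (𝓞 K) (𝓞 M)) hadm
    rw [map_sub, map_one, map_ofNat] at h2
    have h3 : ((2 : ℕ) : 𝓞 M) ^ 3 = 8 := by norm_num
    rw [h3]
    exact h2
  have h4 : ((algebraMap (𝓞 K) (𝓞 M) a : 𝓞 M) : M) = algebraMap K M (a : K) := rfl
  have h5 := s_ram_p 2 M H (-1) (algebraMap (𝓞 K) (𝓞 M) a) s γ (IsPrimitiveRoot.neg_one 0 (by norm_num)) h0 h1 hd (by rw [h4]; exact hsa) (by
      rw [hγs, map_neg, map_one, neg_one_mul]) y u x hγy (by
      rw [hx, Finset.prod_range_succ, Finset.prod_range_one, pow_zero, pow_one]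
      rfl) v (by
      rw [h4]
      exact (even_iff_two_dvd.1 hv))
  exact even_iff_two_dvd.2 h5

end Pool.Agent.Helper42.RS
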