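import Pool.Agent.Helper36.RS.Goals

/-!
# Project RF, packet PRSA: product and commutator estimates
-/

namespace Pool.Agent.Helper42.RS

open Set Filter Topology MeasureTheory Pool.Agent.Helper47.RF Pool.Agent.Helper36.RS

/-- Pairs of complementary subwords of `w`, the first one nonempty. -/
def spl : List (Fin 3) → List (List (Fin 3) × List (Fin 3))
  | [] => []
  | i :: w => ([i], w) :: ((spl w).map (fun p => (i :: p.1, p.2)) ++
      (spl w).map (fun p => (p.1, i :: p.2)))

theorem spl_length (w : List (Fin 3)) : (spl w).length + 1 ≤ 2 ^ w.length := by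
  induction w with
  | nil => simp [spl]
  | cons i w ih =>
    simp only [spl, List.length_cons, List.length_append, List.length_map, pow_succ]
    omega

theorem spl_mem {w : List (Fin 3)} {p : List (Fin 3) × List (Fin 3)} (hp : p ∈ spl w) :
    1 ≤ p.1.length ∧ p.1.length + p.2.length = w.length := by
  induction w generalizing p with
  | nil => simp [spl] at hp
  | cons i w ih =>
    simp only [spl, List.mem_cons, List.mem_append, List.mem_map] at hp
    rcases hp with rfl | ⟨q, hq, rfl⟩ | ⟨q, hq, rfl⟩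
    · simp; omega
    · have := ih hq
      simp only [List.length_cons]
      omega
    · have := ih hq
      simp only [List.length_cons]
      omega

theorem Ed_mul (i : Fin 3) (u v : XS) : Ed i (u * v) = Ed i u * v + u * Ed i v := by
  rw [Derivation.leibniz, smul_eq_mul, smul_eq_mul]
  ring

/-- Leibniz rule. -/
theorem Wd_mul (w : List (Fin 3)) (u v : XS) :
    Wd w (u * v) = u * Wd w v + ((spl w).map fun p => Wd p.1 u * Wd p.2 v).sum := by
  induction w with
  | nil => simp [spl]
  | cons i w ih =>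
    have hsum : ∀ L : List (List (Fin 3) × List (Fin 3)),
        Ed i ((L.map fun p => Wd p.1 u * Wd p.2 v).sum) =
          ((L.map (fun p => (i :: p.1, p.2))).map fun p => Wd p.1 u * Wd p.2 v).sum +
          ((L.map (fun p => (p.1, i :: p.2))).map fun p => Wd p.1 u * Wd p.2 v).sum := by
      intro L
      induction L with
      | nil => simp
      | cons p L ihL =>
        simp only [List.map_cons, List.sum_cons, map_add, ihL, Ed_mul, Wd_cons]
        ring
    rw [Wd_cons, ih, map_add, hsum, Ed_mul]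
    simp only [spl, List.map_cons, List.sum_cons, List.map_append, List.sum_append, Wd_cons,
      Wd_nil]
    ring

theorem bf_zero (u v : XS) : bf 0 u v = ip u v := by
  rw [bf_apply]
  have h : Wle 0 = {[]} := by
    ext w
    rw [mem_Wle, Finset.mem_singleton]
    exact ⟨fun h => List.length_eq_zero_iff.1 (by omega), fun h => by simp [h]⟩
  rw [h, Finset.sum_singleton]
  rfl

/-- sums -/
theorem lsum {B : ℝ} (hB : 0 ≤ B) (L : List XS) (h : ∀ f ∈ L, ip f f ≤ B) :
    ip L.sum L.sum ≤ (L.length : ℝ) ^ 2 * B := by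
  induction L with
  | nil => simp
  | cons f L ih =>
    have h1 := h f (by simp)
    have h2 := ih fun g hg => h g (by simp [hg])
    have h3 := cs 0 f L.sum
    rw [bf_zero, sn_zero, sn_zero] at h3
    have hf0 := ip_nonneg f
    have hL0 := ip_nonneg L.sum
    have h4 : ip f L.sum ^ 2 ≤ ((L.length : ℝ) * B) ^ 2 := by
      calc ip f L.sum ^ 2 ≤ ip f f * ip L.sum L.sum := h3
        _ ≤ B * ((L.length : ℝ) ^ 2 * B) := mul_le_mul h1 h2 hL0 hB
        _ = _ := by ring
    have h5 : ip f L.sum ≤ (L.length : ℝ) * B :=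
      le_of_sq_le_sq h4 (by positivity)
    rw [List.sum_cons, List.length_cons]
    simp only [map_add, LinearMap.add_apply]
    rw [ip_comm L.sum f]
    push_cast
    nlinarith

/-- derivatives in the norms -/
theorem sn_Wd (w : List (Fin 3)) (m : ℕ) (u : XS) : sn m (Wd w u) ≤ sn (m + w.length) u := by
  induction w generalizing m with
  | nil => simp
  | cons i w ih =>
    rw [Wd_cons]
    refine (sn_Ed m i _).trans ((ih (m + 1)).trans (le_of_eq ?_))
    rw [List.length_cons]
    congr 1
    omega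

/-- product with a bounded function -/
theorem prodL (hs : G_SOB) : ∃ C, 0 ≤ C ∧ ∀ u v : XS, ip (u * v) (u * v) ≤ C * sn 4 u * ip v v := by
  obtain ⟨C, hC⟩ := hs
  refine ⟨max C 0, le_max_right _ _, fun u v => ?_⟩
  rw [ip_apply, ip_apply, integ, integ]
  have h1 : ∫ x in Metric.ball (0 : HH) 1, (u * v).1 x * (u * v).1 x ≤
      ∫ x in Metric.ball (0 : HH) 1, (max C 0 * sn 4 u) * (v.1 x * v.1 x) := by
    apply integral_mono_ae
    · exact integrable_val (u * v * (u * v))
    · exact (integrable_val (v * v)).const_mul _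
    · have h0 : ∀ᵐ x ∂(volume.restrict (Metric.ball (0 : HH) 1)), x ≠ 0 :=
        ae_restrict_of_ae (Measure.ae_ne _ 0)
      filter_upwards [h0] with x hx
      have h2 := hC u x hx
      have h3 : u.1 x ^ 2 ≤ max C 0 * sn 4 u :=
        h2.trans (mul_le_mul_of_nonneg_right (le_max_left _ _) (sn_nonneg _ _))
      have h4 : (u * v).1 x = u.1 x * v.1 x := rfl
      rw [h4]
      calc u.1 x * v.1 x * (u.1 x * v.1 x) = u.1 x ^ 2 * (v.1 x * v.1 x) := by ring
        _ ≤ _ := mul_le_mul_of_nonneg_right h3 (mul_self_nonneg _)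
  rw [integral_const_mul] at h1
  linarith

/-- The basic estimate of one term. -/
theorem term (hs : G_SOB) : ∃ C, 0 ≤ C ∧ ∀ (u v : XS) (w' w'' : List (Fin 3)) (m n : ℕ),
    (w'.length + 4 ≤ m → w''.length ≤ n →
      ip (Wd w' u * Wd w'' v) (Wd w' u * Wd w'' v) ≤ C * (sn m u * sn n v)) ∧
    (w'.length ≤ m → w''.length + 4 ≤ n →
      ip (Wd w' u * Wd w'' v) (Wd w' u * Wd w'' v) ≤ C * (sn m u * sn n v)) := by
  obtain ⟨C, hC0, hC⟩ := prodL hs
  have key : ∀ (u v : XS) (w' w'' : List (Fin 3)) (m n : ℕ), w'.length + 4 ≤ m → w''.length ≤ n →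
      ip (Wd w' u * Wd w'' v) (Wd w' u * Wd w'' v) ≤ C * (sn m u * sn n v) := by
    intro u v w' w'' m n h1 h2
    have h3 : sn 4 (Wd w' u) ≤ sn m u :=
      (sn_Wd w' 4 u).trans (sn_mono (by omega) u)
    have h4 : ip (Wd w'' v) (Wd w'' v) ≤ sn n v := ip_Wd_le h2 v
    calc _ ≤ C * sn 4 (Wd w' u) * ip (Wd w'' v) (Wd w'' v) := hC _ _
      _ ≤ C * sn m u * sn n v := by
          apply mul_le_mul (mul_le_mul_of_nonneg_left h3 hC0) h4 (ip_nonneg _)
          exact mul_nonneg hC0 (sn_nonneg _ _)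
      _ = _ := by ring
  refine ⟨C, hC0, fun u v w' w'' m n => ⟨key u v w' w'' m n, fun h1 h2 => ?_⟩⟩
  rw [mul_comm (Wd w' u), mul_comm (sn m u)]
  exact key v u w'' w' n m h2 h1

/-- From terms to words. -/
theorem word_le {B : ℝ} (hB : 0 ≤ B) {k : ℕ} {w : List (Fin 3)} (hw : w.length ≤ k) (u v : XS)
    (h0 : ip (u * Wd w v) (u * Wd w v) ≤ B)
    (h : ∀ p ∈ spl w, ip (Wd p.1 u * Wd p.2 v) (Wd p.1 u * Wd p.2 v) ≤ B) :
    ip (Wd w (u * v)) (Wd w (u * v)) ≤ (2 ^ k) ^ 2 * B := by
  have h1 := lsum hB (u * Wd w v :: (spl w).map fun p => Wd p.1 u * Wd p.2 v) (by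
    intro f hf
    rw [List.mem_cons, List.mem_map] at hf
    rcases hf with rfl | ⟨p, hp, rfl⟩
    · exact h0
    · exact h p hp)
  rw [List.sum_cons, ← Wd_mul] at h1
  refine h1.trans (mul_le_mul_of_nonneg_right ?_ hB)
  have h2 : ((spl w).length + 1 : ℕ) ≤ 2 ^ k :=
    (spl_length w).trans (Nat.pow_le_pow_right (by norm_num) hw)
  have h3 : (((u * Wd w v :: (spl w).map fun p => Wd p.1 u * Wd p.2 v)).length : ℝ) ≤ 2 ^ k := by
    simp only [List.length_cons, List.length_map]
    exact_mod_cast h2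
  gcongr

/-- From words to the norm. -/
theorem sn_le {B : ℝ} {k : ℕ} (u : XS) (h : ∀ w : List (Fin 3), w.length ≤ k →
    ip (Wd w u) (Wd w u) ≤ B) : sn k u ≤ (Wle k).card * B := by
  rw [sn_eq, ← nsmul_eq_mul]
  exact Finset.sum_le_card_nsmul _ _ _ fun w hw => h w (mem_Wle.1 hw)

/-- **PRSA.** -/
theorem prsa : G_PRSA := by
  intro hs
  obtain ⟨C, hC0, hC⟩ := term hs
  refine ⟨?_, ?_, ?_, ?_⟩
  · intro k hk
    refine ⟨(Wle k).card * ((2 ^ k) ^ 2 * C), fun u v => ?_⟩
    set S := sn k u * sn (k - 2) v + sn (k - 2) u * sn k v with hS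
    have hp1 : 0 ≤ sn k u * sn (k - 2) v := mul_nonneg (sn_nonneg _ _) (sn_nonneg _ _)
    have hp2 : 0 ≤ sn (k - 2) u * sn k v := mul_nonneg (sn_nonneg _ _) (sn_nonneg _ _)
    have hB : 0 ≤ C * S := mul_nonneg hC0 (by linarith)
    have ht : ∀ w' w'' : List (Fin 3), w'.length + w''.length ≤ k →
        ip (Wd w' u * Wd w'' v) (Wd w' u * Wd w'' v) ≤ C * S := by
      intro w' w'' h
      rcases le_or_gt w'.length (k / 2) with h1 | h1
      · refine ((hC u v w' w'' (k - 2) k).1 (by omega) (by omega)).trans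
          (mul_le_mul_of_nonneg_left (by linarith) hC0)
      · refine ((hC u v w' w'' k (k - 2)).2 (by omega) (by omega)).trans
          (mul_le_mul_of_nonneg_left (by linarith) hC0)
    have h2 := sn_le (k := k) (u * v) (B := (2 ^ k) ^ 2 * (C * S)) (fun w hw =>
      word_le hB hw u v (by simpa using ht [] w (by simpa using hw))
        (fun p hp => ht p.1 p.2 (by have := spl_mem hp; omega)))
    calc _ ≤ _ := h2
      _ = _ := by ring
  · intro k
    refine ⟨(Wle k).card * ((2 ^ k) ^ 2 * C), fun u v => ?_⟩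
    set S := sn (k + 4) u * sn k v with hS
    have hB : 0 ≤ C * S := mul_nonneg hC0 (mul_nonneg (sn_nonneg _ _) (sn_nonneg _ _))
    have ht : ∀ w' w'' : List (Fin 3), w'.length + w''.length ≤ k →
        ip (Wd w' u * Wd w'' v) (Wd w' u * Wd w'' v) ≤ C * S := fun w' w'' h =>
      (hC u v w' w'' (k + 4) k).1 (by omega) (by omega)
    have h2 := sn_le (k := k) (u * v) (B := (2 ^ k) ^ 2 * (C * S)) (fun w hw =>
      word_le hB hw u v (by simpa using ht [] w (by simpa using hw))
        (fun p hp => ht p.1 p.2 (by have := spl_mem hp; omega)))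
    calc _ ≤ _ := h2
      _ = _ := by ring
  · intro k hk
    refine ⟨(2 ^ k) ^ 2 * C, fun w hw a v => ?_⟩
    set S := sn k a * sn (k - 1) v with hS
    have hB : 0 ≤ C * S := mul_nonneg hC0 (mul_nonneg (sn_nonneg _ _) (sn_nonneg _ _))
    have h1 := lsum hB ((spl w).map fun p => Wd p.1 a * Wd p.2 v) (by
      intro f hf
      rw [List.mem_map] at hf
      obtain ⟨p, hp, rfl⟩ := hf
      have hm := spl_mem hp
      rcases le_or_gt p.1.length (k / 2) with h1 | h1
      · exact (hC a v p.1 p.2 k (k - 1)).1 (by omega) (by omega)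
      · exact (hC a v p.1 p.2 k (k - 1)).2 (by omega) (by omega))
    rw [Wd_mul, add_sub_cancel_left]
    refine h1.trans ?_
    have h2 : ((spl w).length : ℕ) ≤ 2 ^ k :=
      (Nat.le_succ _).trans ((spl_length w).trans (Nat.pow_le_pow_right (by norm_num) hw))
    have h3 : (((spl w).map fun p => Wd p.1 a * Wd p.2 v).length : ℝ) ≤ 2 ^ k := by
      simp only [List.length_map]
      exact_mod_cast h2
    rw [mul_assoc]
    gcongr
  · intro k hk
    refine ⟨(Wle k).card * ((2 ^ k) ^ 2 * C), fun u v => ?_⟩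
    set S := sn k u * sn k v with hS
    have hB : 0 ≤ C * S := mul_nonneg hC0 (mul_nonneg (sn_nonneg _ _) (sn_nonneg _ _))
    have ht : ∀ w' w'' : List (Fin 3), w'.length + w''.length ≤ k →
        ip (Wd w' u * Wd w'' v) (Wd w' u * Wd w'' v) ≤ C * S := by
      intro w' w'' h
      rcases le_or_gt w'.length (k / 2) with h1 | h1
      · exact (hC u v w' w'' k k).1 (by omega) (by omega)
      · exact (hC u v w' w'' k k).2 (by omega) (by omega)
    have h2 := sn_le (k := k) (u * v) (B := (2 ^ k) ^ 2 * (C * S)) (fun w hw =>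
      word_le hB hw u v (by simpa using ht [] w (by simpa using hw))
        (fun p hp => ht p.1 p.2 (by have := spl_mem hp; omega)))
    calc _ ≤ _ := h2
      _ = _ := by ring

end Pool.Agent.Helper42.RS
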